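import Pool.Agent.H9.AB.JIdealM

/-!
# Project AB, module ConjM

Complex conjugation on `M = ℚ(ζ_m)` and roots of unity.
-/

namespace H66AB

open NumberField H9AB

private theorem ConjM_val (m : ℕ) [NeZero m] : ((-1 : (ZMod m)ˣ) : ZMod m).val = m - 1 ∨ m = 1 := by
  have hm : 0 < m := NeZero.pos m
  rw [Units.val_neg, Units.val_one]
  obtain ⟨n, rfl⟩ : ∃ n, m = n + 1 := ⟨m - 1, by omega⟩
  left
  exact ZMod.val_neg_one n

private theorem ConjM_coe (M : Type*) [Field M] [NumberField M] (σ : M ≃ₐ[ℚ] M) (x : 𝓞 M) :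
    ((σ • x : 𝓞 M) : M) = σ (x : M) := rfl

theorem galEquiv_cjM (m : ℕ) [NeZero m] (M : Type*) [Field M] [NumberField M]
    [IsCyclotomicExtension {m} ℚ M] :
    IsCyclotomicExtension.Rat.galEquivZMod m M (cjM m M) = -1 := by
  unfold cjM
  rw [MulEquiv.apply_symm_apply]

theorem cjM_mul_cjM (m : ℕ) [NeZero m] (M : Type*) [Field M] [NumberField M]
    [IsCyclotomicExtension {m} ℚ M] : cjM m M * cjM m M = 1 := by
  apply (IsCyclotomicExtension.Rat.galEquivZMod m M).injective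
  rw [map_mul, galEquiv_cjM, map_one, neg_mul_neg, mul_one]

theorem cjM_smul_cjM_smul (m : ℕ) [NeZero m] (M : Type*) [Field M] [NumberField M]
    [IsCyclotomicExtension {m} ℚ M] (x : 𝓞 M) : cjM m M • (cjM m M • x) = x := by
  rw [smul_smul, cjM_mul_cjM, one_smul]

theorem cjM_comm (m : ℕ) [NeZero m] (M : Type*) [Field M] [NumberField M]
    [IsCyclotomicExtension {m} ℚ M] (σ : M ≃ₐ[ℚ] M) (x : 𝓞 M) :
    σ • (cjM m M • x) = cjM m M • (σ • x) := by
  rw [smul_smul, smul_smul]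
  have h : σ * cjM m M = cjM m M * σ := by
    apply (IsCyclotomicExtension.Rat.galEquivZMod m M).injective
    rw [map_mul, map_mul, mul_comm]
  rw [h]

theorem map_cjM_eq_conj (m : ℕ) [NeZero m] (M : Type*) [Field M] [NumberField M]
    [IsCyclotomicExtension {m} ℚ M] (φ : M →+* ℂ) (x : M) :
    φ (cjM m M x) = (starRingEnd ℂ) (φ x) := by
  have hm : 0 < m := NeZero.pos m
  have hζ := IsCyclotomicExtension.zeta_spec m ℚ M
  let f : M →ₐ[ℚ] ℂ := (φ.comp ((cjM m M : M ≃+* M) : M →+* M)).toRatAlgHom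
  let g : M →ₐ[ℚ] ℂ := ((starRingEnd ℂ).comp φ).toRatAlgHom
  have hfg : f = g := by
    refine (hζ.powerBasis ℚ).algHom_ext ?_
    rw [hζ.powerBasis_gen ℚ]
    show φ (cjM m M (IsCyclotomicExtension.zeta m ℚ M)) =
      (starRingEnd ℂ) (φ (IsCyclotomicExtension.zeta m ℚ M))
    have h1 : φ (IsCyclotomicExtension.zeta m ℚ M) ^ m = 1 := by
      rw [← map_pow, hζ.pow_eq_one, map_one]
    have h2 : ‖φ (IsCyclotomicExtension.zeta m ℚ M)‖ = 1 :=
      Complex.norm_eq_one_of_pow_eq_one h1 hm.ne'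
    rw [IsCyclotomicExtension.Rat.galEquivZMod_apply_of_pow_eq m M _ hζ.pow_eq_one, galEquiv_cjM,
      map_pow, ← Complex.inv_eq_conj h2]
    rcases ConjM_val m with h3 | h3
    · rw [h3]
      exact (inv_eq_of_mul_eq_one_right (by rw [← pow_succ', Nat.sub_add_cancel hm, h1])).symm
    · subst h3
      rw [pow_one] at h1
      rw [h1, one_pow, inv_one]
  exact DFunLike.congr_fun hfg x

theorem norm_eq_one_of_mul_cjM (m : ℕ) [NeZero m] (M : Type*) [Field M] [NumberField M]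
    [IsCyclotomicExtension {m} ℚ M] (u : 𝓞 M) (hu : u * (cjM m M • u) = 1) (φ : M →+* ℂ) :
    ‖φ (u : M)‖ = 1 := by
  have h2 : φ (u : M) * (starRingEnd ℂ) (φ (u : M)) = 1 := by
    rw [← map_cjM_eq_conj m M φ, ← ConjM_coe, ← map_mul]
    have h3 : (u : M) * ((cjM m M • u : 𝓞 M) : M) = 1 := by
      have h4 := congrArg (fun z : 𝓞 M => (z : M)) hu
      simpa using h4
    rw [h3, map_one]
  rw [Complex.mul_conj, Complex.normSq_eq_norm_sq] at h2
  have h3 : ‖φ (u : M)‖ ^ 2 = 1 := by exact_mod_cast h2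
  nlinarith [norm_nonneg (φ (u : M))]

/-- `u * cj u = 1` implies that `u` is a root of unity of order dividing `2 m`. -/
theorem pow_eq_one_of_mul_cjM (m : ℕ) [NeZero m] (M : Type*) [Field M] [NumberField M]
    [IsCyclotomicExtension {m} ℚ M] (u : 𝓞 M) (hu : u * (cjM m M • u) = 1) :
    u ^ (2 * m) = 1 := by
  obtain ⟨n, hn, hx⟩ := NumberField.Embeddings.pow_eq_one_of_norm_eq_one M ℂ u.isIntegral_coe
    (norm_eq_one_of_mul_cjM m M u hu)
  have hx' : u ^ n = 1 := by
    apply RingOfIntegers.coe_injective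
    rw [map_pow, map_one]
    exact hx
  let v : (𝓞 M)ˣ := ⟨u, cjM m M • u, hu, by rw [mul_comm]; exact hu⟩
  have hv : v ^ n = 1 := by
    ext
    exact congrArg _ hx'
  have hvt : v ∈ NumberField.Units.torsion M := by
    refine (CommGroup.mem_torsion _).2 ?_
    exact isOfFinOrder_iff_pow_eq_one.2 ⟨n, hn, hv⟩
  have h1 : (⟨v, hvt⟩ : NumberField.Units.torsion M) ^ NumberField.Units.torsionOrder M = 1 := by
    unfold NumberField.Units.torsionOrder
    exact pow_card_eq_one'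
  have h2 : v ^ NumberField.Units.torsionOrder M = 1 := by
    have h3 := congrArg (fun z : NumberField.Units.torsion M => (z : (𝓞 M)ˣ)) h1
    exact h3
  have h4 : NumberField.Units.torsionOrder M ∣ 2 * m := by
    rw [IsCyclotomicExtension.Rat.torsionOrder_eq (n := m) (K := M)]
    split_ifs
    · exact dvd_mul_left _ _
    · exact dvd_rfl
  obtain ⟨k, hk⟩ := h4
  have h5 : v ^ (2 * m) = 1 := by
    rw [hk, pow_mul, h2, one_pow]
  have h6 := congrArg (fun z : (𝓞 M)ˣ => (z : 𝓞 M)) h5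
  exact h6

end H66AB
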