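import Pool.Agent.H66.AB.StickElM

/-!
# Project AB, module StickP

The Stickelberger relation in `M = ℚ(ζ_m)`, `p ∣ m`, `p² ∤ m`, in helper72's form.
-/

namespace H66AB

open NumberField H9AB
open scoped Pointwise

/-- Let `M = ℚ(ζ_m)`, `p` an odd prime with `p ∣ m`, `p² ∤ m`, `A ∈ 𝓞 M` prime to `p` with
`(A) = 𝔞^p`. Then `J^p ∏_{σ ∈ TM m M b} σ⁻¹ A = ζ_p^k Y^p` with `J`, `Y` prime to `p`. -/
theorem stick_pow (m p : ℕ) [NeZero m] (hp : p.Prime) (hp2 : p ≠ 2) (hpm : p ∣ m)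
    (hpm2 : ¬ p ^ 2 ∣ m) (M : Type*) [Field M] [NumberField M] [IsCyclotomicExtension {m} ℚ M]
    {ζ : 𝓞 M} (hζ : IsPrimitiveRoot ζ p)
    (A : 𝓞 M) (hA : ∀ P : Ideal (𝓞 M), P.IsPrime → (p : 𝓞 M) ∈ P → A ∉ P)
    (𝔞 : Ideal (𝓞 M)) (h𝔞 : 𝔞 ^ p = Ideal.span {A}) (b : ℕ) (hb : 1 ≤ b) (hb' : b + 2 ≤ m) :
    ∃ (J Y : 𝓞 M) (k : ℕ),
      (∀ P : Ideal (𝓞 M), P.IsPrime → (p : 𝓞 M) ∈ P → J ∉ P) ∧
      (∀ P : Ideal (𝓞 M), P.IsPrime → (p : 𝓞 M) ∈ P → Y ∉ P) ∧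
      J ^ p * ∏ σ ∈ TM m M b, σ⁻¹ • A = ζ ^ k * Y ^ p := by
  classical
  have : NeZero p := ⟨hp.ne_zero⟩
  obtain ⟨f, hf⟩ := hpm
  obtain ⟨u, x, J, hu, hxJ, h⟩ := stick_elem_m m M b hb hb' p hp ⟨f, hf⟩ A hA 𝔞 h𝔞
  have hpf : ¬ p ∣ f := by
    rintro ⟨g, rfl⟩
    exact hpm2 ⟨g, by rw [hf]; ring⟩
  have hcop : Nat.Coprime (2 * f) p := by
    refine Nat.Coprime.mul_left ?_ ?_
    · exact (Nat.coprime_primes Nat.prime_two hp).2 (Ne.symm hp2)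
    · exact ((Nat.Prime.coprime_iff_not_dvd hp).2 hpf).symm
  obtain ⟨r, hr⟩ : ∃ r : ℕ, (2 * f * r) % p = 1 := by
    obtain ⟨r, -, hr⟩ := Nat.exists_mul_mod_eq_one_of_coprime hcop hp.one_lt
    exact ⟨r, hr⟩
  set s : ℕ := (2 * f * r) / p with hs
  have hrs : 2 * f * r = 1 + p * s := by
    have := Nat.mod_add_div (2 * f * r) p
    rw [hr] at this
    exact this.symm
  have h1 : (u * (u ^ s) ^ p) ^ p = 1 := by
    have h2 : u * (u ^ s) ^ p = u ^ (2 * f * r) := by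
      rw [hrs, pow_add, pow_one, ← pow_mul, mul_comm s p]
    rw [h2, ← pow_mul, show 2 * f * r * p = 2 * m * r by rw [hf]; ring, pow_mul, hu, one_pow]
  obtain ⟨i, -, hi⟩ := hζ.eq_pow_of_pow_eq_one h1
  have hm0 : 0 < m := NeZero.pos _
  have huu : IsUnit u := by
    refine IsUnit.of_mul_eq_one (u ^ (2 * m - 1)) ?_
    rw [← pow_succ', show 2 * m - 1 + 1 = 2 * m by omega, hu]
  refine ⟨J * u ^ s, x, i, ?_, ?_, ?_⟩
  · intro P hP hpP h4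
    rcases hP.mem_or_mem h4 with h5 | h5
    · exact (hxJ P hP hpP).2 h5
    · exact hP.ne_top (Ideal.eq_top_of_isUnit_mem _ (hP.mem_of_pow_mem _ h5) huu)
  · intro P hP hpP
    exact (hxJ P hP hpP).1
  · rw [hi, mul_pow]
    linear_combination (u ^ s) ^ p * h

end H66AB
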