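import Mathlib

/-!
# Project AB, module Move

Moving lemma: an ideal `I ≠ ⊥` of a Dedekind domain and `n ≠ 0`; there is `β ∈ I` with
`(β) = I C`, `C` prime to `n`.
-/

namespace H66AB

theorem exists_moving {R : Type*} [CommRing R] [IsDedekindDomain R] (I : Ideal R) (hI : I ≠ ⊥)
    (n : R) (hn : n ≠ 0) :
    ∃ β ∈ I, ∃ C : Ideal R, Ideal.span {β} = I * C ∧ Ideal.span {n} ⊔ C = ⊤ := by
  have hn' : Ideal.span {n} ≠ ⊥ := by rwa [Ne, Ideal.span_singleton_eq_bot]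
  have h1 : I * Ideal.span {n} ≤ I := Ideal.mul_le_left
  have h2 : I * Ideal.span {n} ≠ 0 := mul_ne_zero hI hn'
  obtain ⟨β, hβ⟩ := IsDedekindDomain.exists_sup_span_eq h1 h2
  have h3 : Ideal.span {β} ≤ I := by
    rw [← hβ]
    exact le_sup_right
  obtain ⟨C, hC⟩ := Ideal.dvd_iff_le.2 h3
  refine ⟨β, h3 (Ideal.mem_span_singleton_self β), C, hC, ?_⟩
  rw [hC, ← Ideal.mul_sup] at hβ
  have h4 : I * (Ideal.span {n} ⊔ C) = I * ⊤ := by
    rw [hβ, Ideal.mul_top]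
  exact mul_left_cancel₀ hI h4

end H66AB
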