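import Pool.Agent.H66.AB.ConjM
import Pool.Agent.H66.AB.Move

/-!
# Project AB, module StickElM

Stickelberger relation in `M = ℚ(ζ_m)` for an element `A` whose ideal is a `p`-th power, `p ∣ m`.

PROOF. `(A) = I^p`. Choose `β ∈ I` with `(β) = I C`, `C` prime to `m` (`exists_moving`);
`A'' = β^p / A` is integral, `(A'') = C^p`. `J` from `exists_stick_m` for `C`, `B = ∏ σ⁻¹ A''`;
`(B) = (J^p)`, `B (c B) = N(A'') > 0`, `(J (c J))^p = N(C)^p = |N(A'')|`, so `B = u J^p` with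
`u (c u) = 1`, hence `u^(2m) = 1`.
-/

namespace H66AB

open NumberField H9AB
open scoped Pointwise

theorem cjM_mul_mem_TM (m : ℕ) [NeZero m] (M : Type*) [Field M] [NumberField M]
    [IsCyclotomicExtension {m} ℚ M] (b : ℕ) (hb : 1 ≤ b) (hb' : b + 2 ≤ m) (σ : M ≃ₐ[ℚ] M) :
    cjM m M * σ ∈ TM m M b ↔ σ ∉ TM m M b := by
  classical
  have hm : 0 < m := NeZero.pos m
  set g := IsCyclotomicExtension.Rat.galEquivZMod m M with hg
  rw [mem_TM, mem_TM, ← hg]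
  have h1 : g (cjM m M * σ) = -(g σ) := by
    rw [map_mul, hg, galEquiv_cjM, neg_one_mul]
  rw [h1, Units.val_neg]
  have : Fact (1 < m) := ⟨by omega⟩
  set t : ℕ := (g σ).val.val with ht
  have htc : Nat.Coprime t m := ZMod.val_coe_unit_coprime (g σ)
  have ht0 : 0 < t := by
    refine Nat.pos_of_ne_zero fun h => ?_
    rw [h, Nat.coprime_zero_left] at htc
    omega
  have htm : t < m := ZMod.val_lt _
  have h2 : (-((g σ : (ZMod m)ˣ) : ZMod m)).val = m - t := by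
    rw [ZMod.neg_val, if_neg (Units.ne_zero _)]
  rw [h2]
  have hnd : ∀ c : ℕ, 0 < c → c < m → ¬ m ∣ c * t := by
    intro c hc hc' h
    exact absurd (Nat.le_of_dvd hc (htc.symm.dvd_of_dvd_mul_right h)) (by omega)
  set r : ℕ := (b * t) % m with hr
  have hr0 : r ≠ 0 := fun h => hnd b (by omega) (by omega) (Nat.dvd_of_mod_eq_zero h)
  have hrp : r < m := Nat.mod_lt _ hm
  have h3 : (b * (m - t)) % m = m - r := by
    have h4 : b * (m - t) + b * t = b * m := by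
      rw [← mul_add, Nat.sub_add_cancel htm.le]
    have h5 : (b * (m - t) + r) % m = 0 := by
      rw [hr, Nat.add_mod_mod, h4]
      exact Nat.mul_mod_left _ _
    have h6 : ((b * (m - t)) % m + r) % m = 0 := by
      rw [Nat.mod_add_mod]
      exact h5
    have h7 : (b * (m - t)) % m < m := Nat.mod_lt _ hm
    obtain ⟨c, hc⟩ := Nat.dvd_of_mod_eq_zero h6
    have hc1 : c = 1 := by
      have : m * c < m * 2 := by omega
      have h8 : c < 2 := Nat.lt_of_mul_lt_mul_left this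
      rcases Nat.eq_zero_or_pos c with h9 | h9
      · rw [h9, mul_zero] at hc
        omega
      · omega
    rw [hc1, mul_one] at hc
    omega
  rw [h3]
  have h4 : t + r ≠ m := by
    intro h
    apply hnd (b + 1) (by omega) (by omega)
    have h5 : (t + r) % m = ((b + 1) * t) % m := by
      rw [hr, Nat.add_mod_mod]
      congr 1
      ring
    rw [h, Nat.mod_self] at h5
    exact Nat.dvd_of_mod_eq_zero h5.symm
  omega

private theorem smul_span' {R G : Type*} [CommRing R] [Group G] [MulSemiringAction G R]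
    (σ : G) (x : R) : σ • Ideal.span {x} = Ideal.span {σ • x} := by
  rw [Ideal.pointwise_smul_def, Ideal.map_span, Set.image_singleton]
  rfl

private theorem smul_intCast' {R G : Type*} [CommRing R] [Group G] [MulSemiringAction G R]
    (σ : G) (n : ℤ) : σ • (n : R) = (n : R) := by
  have h := map_intCast (MulSemiringAction.toRingHom G R σ) n
  exact h

private theorem natCast_mem' {R G : Type*} [CommRing R] [Group G] [MulSemiringAction G R]
    (σ : G) (I : Ideal R) (n : ℕ) : (n : R) ∈ σ • I ↔ (n : R) ∈ I := by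
  have h : σ • (n : R) = (n : R) := by
    have h := smul_intCast' (R := R) σ (n : ℤ)
    simpa using h
  conv_lhs => rw [← h]
  exact Ideal.smul_mem_pointwise_smul_iff

private theorem norm_prod (M : Type*) [Field M] [NumberField M] [IsGalois ℚ M] (A : 𝓞 M) :
    ∏ σ : M ≃ₐ[ℚ] M, σ • A = ((Algebra.norm ℤ A : ℤ) : 𝓞 M) := by
  apply FaithfulSMul.algebraMap_injective (𝓞 M) M
  rw [map_prod, map_intCast]
  have h1 := Algebra.norm_eq_prod_automorphisms ℚ (algebraMap (𝓞 M) M A)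
  have h2 := Algebra.coe_norm_int A
  have h3 : ((Algebra.norm ℤ A : ℤ) : M) = algebraMap ℚ M ((Algebra.norm ℤ A : ℤ) : ℚ) := by
    rw [map_intCast]
  rw [h3, h2]
  exact h1.symm

theorem prod_TM_mul_cjM (m : ℕ) [NeZero m] (M : Type*) [Field M] [NumberField M]
    [IsCyclotomicExtension {m} ℚ M] (b : ℕ) (hb : 1 ≤ b) (hb' : b + 2 ≤ m) (A : 𝓞 M) :
    (∏ σ ∈ TM m M b, σ⁻¹ • A) * (cjM m M • ∏ σ ∈ TM m M b, σ⁻¹ • A) =
      ((Algebra.norm ℤ A : ℤ) : 𝓞 M) := by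
  classical
  have : IsGalois ℚ M := IsCyclotomicExtension.isGalois {m} ℚ M
  rw [← norm_prod M A]
  have h1 : ∏ σ : M ≃ₐ[ℚ] M, σ • A = ∏ σ : M ≃ₐ[ℚ] M, σ⁻¹ • A :=
    Fintype.prod_equiv (Equiv.inv _) _ _ fun σ => by simp
  rw [h1, ← Finset.prod_mul_prod_compl (TM m M b), Finset.smul_prod']
  congr 1
  refine Finset.prod_bij (fun σ _ => cjM m M * σ) ?_ ?_ ?_ ?_
  · intro σ hσ
    rw [Finset.mem_compl]
    intro h
    exact (cjM_mul_mem_TM m M b hb hb' σ).1 h hσ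
  · intro σ _ τ _ h
    exact mul_left_cancel h
  · intro σ hσ
    rw [Finset.mem_compl] at hσ
    refine ⟨cjM m M * σ, (cjM_mul_mem_TM m M b hb hb' σ).2 hσ, ?_⟩
    rw [← mul_assoc, cjM_mul_cjM, one_mul]
  · intro σ _
    have h2 : (cjM m M)⁻¹ • A = cjM m M • A := by
      conv_lhs => rw [← cjM_smul_cjM_smul m M A]
      rw [inv_smul_smul]
    rw [mul_inv_rev, mul_smul, h2, cjM_comm]

/-- the case of an ideal prime to `m` -/
theorem stick_coprime_m (m : ℕ) [NeZero m] (M : Type*) [Field M] [NumberField M]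
    [IsCyclotomicExtension {m} ℚ M] (b : ℕ) (hb : 1 ≤ b) (hb' : b + 2 ≤ m) (p : ℕ) (hp : p ≠ 0)
    (A : 𝓞 M) (hA : A ≠ 0) (C : Ideal (𝓞 M)) (hC : C ^ p = Ideal.span {A})
    (hCm : ∀ P : Ideal (𝓞 M), P.IsPrime → (m : 𝓞 M) ∈ P → ¬ C ≤ P) :
    ∃ u J : 𝓞 M, u ^ (2 * m) = 1 ∧ ∏ σ ∈ TM m M b, σ⁻¹ • A = u * J ^ p := by
  classical
  have hspanA : Ideal.span {A} ≠ ⊥ := by
    rw [Ne, Ideal.span_singleton_eq_bot]; exact hA
  have hC0 : C ≠ ⊥ := by
    rintro rfl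
    apply hspanA
    rw [← hC, ← Ideal.zero_eq_bot, zero_pow hp]
  obtain ⟨J, hJ1, hJ2⟩ := exists_stick_m m M b hb hb' C hC0 hCm
  set B : 𝓞 M := ∏ σ ∈ TM m M b, σ⁻¹ • A with hB
  have hBJ : Ideal.span {J ^ p} = Ideal.span {B} := by
    rw [← Ideal.span_singleton_pow, hJ1, ← Finset.prod_pow]
    rw [hB, ← Ideal.prod_span_singleton]
    refine Finset.prod_congr rfl fun σ _ => ?_
    rw [← smul_span', ← hC, smul_pow']
  obtain ⟨u, hu⟩ := Ideal.span_singleton_eq_span_singleton.1 hBJ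
  have hN := prod_TM_mul_cjM m M b hb hb' A
  rw [← hB] at hN
  set n : ℤ := Algebra.norm ℤ A with hn
  have hn0 : n ≠ 0 := by
    rw [hn]
    exact Algebra.norm_ne_zero_iff.2 hA
  have hnpos : 0 ≤ n := by
    obtain ⟨φ⟩ : Nonempty (M →+* ℂ) := inferInstance
    have h1 := congrArg (fun x : 𝓞 M => φ (algebraMap (𝓞 M) M x)) hN
    simp only [map_mul, map_intCast] at h1
    have h2 : algebraMap (𝓞 M) M (cjM m M • B) = cjM m M (algebraMap (𝓞 M) M B) := rfl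
    rw [h2, map_cjM_eq_conj, Complex.mul_conj] at h1
    have h3 : Complex.normSq (φ (algebraMap (𝓞 M) M B)) = (n : ℝ) := by
      exact_mod_cast h1
    have h4 : (0 : ℝ) ≤ (n : ℝ) := by
      rw [← h3]
      exact Complex.normSq_nonneg _
    exact_mod_cast h4
  have hJp : J ^ p * (cjM m M • J ^ p) = (n : 𝓞 M) := by
    rw [smul_pow', ← mul_pow, hJ2, ← Nat.cast_pow, ← map_pow, hC, Ideal.absNorm_span_singleton,
      ← hn]
    have h1 : ((n.natAbs : ℕ) : ℤ) = n := Int.natAbs_of_nonneg hnpos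
    calc ((n.natAbs : ℕ) : 𝓞 M) = (((n.natAbs : ℕ) : ℤ) : 𝓞 M) := (Int.cast_natCast _).symm
      _ = _ := by rw [h1]
  have hucj : (u : 𝓞 M) * (cjM m M • (u : 𝓞 M)) = 1 := by
    have h1 : (n : 𝓞 M) ≠ 0 := Int.cast_ne_zero.2 hn0
    have h2 : (n : 𝓞 M) * ((u : 𝓞 M) * (cjM m M • (u : 𝓞 M))) = (n : 𝓞 M) * 1 := by
      calc (n : 𝓞 M) * ((u : 𝓞 M) * (cjM m M • (u : 𝓞 M)))
          = J ^ p * (cjM m M • J ^ p) * ((u : 𝓞 M) * (cjM m M • (u : 𝓞 M))) := by rw [hJp]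
        _ = (J ^ p * u) * ((cjM m M • J ^ p) * (cjM m M • (u : 𝓞 M))) := by ring
        _ = (J ^ p * u) * (cjM m M • (J ^ p * u)) := by rw [smul_mul']
        _ = (n : 𝓞 M) * 1 := by rw [hu, hN, mul_one]
    exact mul_left_cancel₀ h1 h2
  exact ⟨u, J, pow_eq_one_of_mul_cjM m M u hucj, by rw [← hu, mul_comm]⟩

/-- the Stickelberger relation for an element whose ideal is a `p`-th power -/
theorem stick_elem_m (m : ℕ) [NeZero m] (M : Type*) [Field M] [NumberField M]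
    [IsCyclotomicExtension {m} ℚ M] (b : ℕ) (hb : 1 ≤ b) (hb' : b + 2 ≤ m) (p : ℕ) (hp : p.Prime)
    (hpm : p ∣ m) (A : 𝓞 M) (hA : ∀ P : Ideal (𝓞 M), P.IsPrime → (p : 𝓞 M) ∈ P → A ∉ P)
    (I : Ideal (𝓞 M)) (hI : I ^ p = Ideal.span {A}) :
    ∃ u x J : 𝓞 M, u ^ (2 * m) = 1 ∧
      (∀ P : Ideal (𝓞 M), P.IsPrime → (p : 𝓞 M) ∈ P → x ∉ P ∧ J ∉ P) ∧
      (∏ σ ∈ TM m M b, σ⁻¹ • A) * J ^ p = u * x ^ p := by
  classical
  have hp0 : p ≠ 0 := hp.ne_zero
  have hm0 : m ≠ 0 := NeZero.ne m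
  -- there is a prime above `p`
  obtain ⟨P₀, hP₀, hpP₀⟩ : ∃ P : Ideal (𝓞 M), P.IsPrime ∧ (p : 𝓞 M) ∈ P := by
    have h0 : (p : ℤ) ≠ 0 := by exact_mod_cast hp0
    have h1 : (Ideal.span {(p : ℤ)}).IsPrime := by
      rw [Ideal.span_singleton_prime h0]
      exact Nat.prime_iff_prime_int.mp hp
    have h2 : (Ideal.span {(p : ℤ)}).IsMaximal := h1.isMaximal (by
      rw [Ne, Ideal.span_singleton_eq_bot]; exact h0)
    obtain ⟨P, hP, hpP⟩ := Ideal.exists_ideal_over_maximal_of_isIntegral (S := 𝓞 M)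
      (Ideal.span {(p : ℤ)}) (by
        rw [(RingHom.injective_iff_ker_eq_bot _).1 (FaithfulSMul.algebraMap_injective ℤ (𝓞 M))]
        exact bot_le)
    refine ⟨P, hP.isPrime, ?_⟩
    have h3 : (p : ℤ) ∈ P.comap (algebraMap ℤ (𝓞 M)) := by
      rw [hpP]
      exact Ideal.mem_span_singleton_self _
    rw [Ideal.mem_comap, map_natCast] at h3
    exact h3
  have hA0 : A ≠ 0 := by
    intro h
    apply hA P₀ hP₀ hpP₀
    rw [h]
    exact Ideal.zero_mem _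
  have hspanA : Ideal.span {A} ≠ ⊥ := by
    rw [Ne, Ideal.span_singleton_eq_bot]; exact hA0
  have hI0 : I ≠ ⊥ := by
    rintro rfl
    apply hspanA
    rw [← hI, ← Ideal.zero_eq_bot, zero_pow hp0]
  obtain ⟨β, hβI, C, hC1, hC2⟩ := exists_moving I hI0 (m : 𝓞 M) (Nat.cast_ne_zero.2 hm0)
  -- `β ^ p = A * A'`
  have h1 : Ideal.span {β ^ p} = Ideal.span {A} * C ^ p := by
    rw [← Ideal.span_singleton_pow, hC1, mul_pow, hI]
  have h2 : A ∣ β ^ p := by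
    rw [← Ideal.span_singleton_le_span_singleton, h1]
    exact Ideal.mul_le_left
  obtain ⟨A', hA'⟩ := h2
  obtain ⟨k, hk⟩ := hpm
  have hmP : ∀ P : Ideal (𝓞 M), (p : 𝓞 M) ∈ P → (m : 𝓞 M) ∈ P := by
    intro P hP
    rw [hk, Nat.cast_mul]
    exact P.mul_mem_right _ hP
  have hCP : ∀ P : Ideal (𝓞 M), P.IsPrime → (m : 𝓞 M) ∈ P → ¬ C ≤ P := by
    intro P hP hmP' hle
    apply hP.ne_top
    rw [eq_top_iff, ← hC2]
    exact sup_le ((Ideal.span_singleton_le_iff_mem _).2 hmP') hle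
  have hC0 : C ≠ ⊥ := by
    rintro rfl
    exact hCP P₀ hP₀ (hmP P₀ hpP₀) bot_le
  have hCp : C ^ p = Ideal.span {A'} := by
    rw [hA', ← Ideal.span_singleton_mul_span_singleton] at h1
    exact (mul_left_cancel₀ hspanA h1).symm
  have hA'0 : A' ≠ 0 := by
    intro h
    rw [h, Ideal.span_singleton_eq_bot.2 rfl, ← Ideal.zero_eq_bot] at hCp
    exact hC0 (pow_eq_zero_iff hp0 |>.1 hCp)
  obtain ⟨u, J, hu, hJ⟩ := stick_coprime_m m M b hb hb' p hp0 A' hA'0 C hCp hCP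
  have hm1 : 2 * m = (2 * m - 1) + 1 := by omega
  have huu : u ^ (2 * m - 1) * u = 1 := by
    rw [← pow_succ, ← hm1, hu]
  have hx : (∏ σ ∈ TM m M b, σ⁻¹ • A) * (u * J ^ p) = (∏ σ ∈ TM m M b, σ⁻¹ • β) ^ p := by
    rw [← hJ, ← Finset.prod_mul_distrib, ← Finset.prod_pow]
    refine Finset.prod_congr rfl fun σ _ => ?_
    rw [← smul_mul', ← hA', smul_pow']
  have hxP : ∀ P : Ideal (𝓞 M), P.IsPrime → (p : 𝓞 M) ∈ P → ∏ σ ∈ TM m M b, σ⁻¹ • β ∉ P := by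
    intro P hP hpP h
    rw [Ideal.IsPrime.prod_mem_iff] at h
    obtain ⟨σ, _, h3⟩ := h
    have h4 : β ∈ σ • P := by
      rw [Ideal.mem_pointwise_smul_iff_inv_smul_mem]
      exact h3
    have hQ : (σ • P).IsPrime := (Ideal.IsPrime.smul_iff σ).2 hP
    have hpQ : (p : 𝓞 M) ∈ σ • P := (natCast_mem' σ _ p).2 hpP
    rw [← Ideal.span_singleton_le_iff_mem, hC1, hQ.mul_le] at h4
    rcases h4 with h5 | h5
    · apply hA _ hQ hpQ
      have h6 : A ∈ I ^ p := by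
        rw [hI]
        exact Ideal.mem_span_singleton_self A
      exact h5 (Ideal.pow_le_self hp0 h6)
    · exact hCP _ hQ (hmP _ hpQ) h5
  have hfin : (∏ σ ∈ TM m M b, σ⁻¹ • A) * J ^ p =
      u ^ (2 * m - 1) * (∏ σ ∈ TM m M b, σ⁻¹ • β) ^ p := by
    rw [← hx]
    linear_combination (-((∏ σ ∈ TM m M b, σ⁻¹ • A) * J ^ p)) * huu
  refine ⟨u ^ (2 * m - 1), ∏ σ ∈ TM m M b, σ⁻¹ • β, J, ?_, ?_, hfin⟩
  · rw [← pow_mul, mul_comm, pow_mul, hu, one_pow]
  · intro P hP hpP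
    refine ⟨hxP P hP hpP, fun hJP => hxP P hP hpP ?_⟩
    have h3 : (∏ σ ∈ TM m M b, σ⁻¹ • β) ^ p ∈ P := by
      rw [← hx]
      exact P.mul_mem_left _ (P.mul_mem_left _ (P.pow_mem_of_mem hJP p hp.pos))
    exact hP.mem_of_pow_mem _ h3

/-- the Stickelberger relation, `m = f p`, with a `p`-th root of unity -/
theorem stick_elem_fp (f p : ℕ) [NeZero (f * p)] (hp : p.Prime) (hp2 : p ≠ 2) (hpf : ¬ p ∣ f)
    (M : Type*) [Field M] [NumberField M] [IsCyclotomicExtension {f * p} ℚ M]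
    {ζ : 𝓞 M} (hζ : IsPrimitiveRoot ζ p) (b : ℕ) (hb : 1 ≤ b) (hb' : b + 2 ≤ f * p)
    (A : 𝓞 M) (hA : ∀ P : Ideal (𝓞 M), P.IsPrime → (p : 𝓞 M) ∈ P → A ∉ P)
    (I : Ideal (𝓞 M)) (hI : I ^ p = Ideal.span {A}) :
    ∃ (i : ℕ) (x J : 𝓞 M),
      (∀ P : Ideal (𝓞 M), P.IsPrime → (p : 𝓞 M) ∈ P → x ∉ P ∧ J ∉ P) ∧
      (∏ σ ∈ TM (f * p) M b, σ⁻¹ • A) * J ^ p = ζ ^ i * x ^ p := by
  classical
  have : NeZero p := ⟨hp.ne_zero⟩
  obtain ⟨u, x, J, hu, hxJ, h⟩ := stick_elem_m (f * p) M b hb hb' p hp (dvd_mul_left _ _) A hA I hI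
  have hcop : Nat.Coprime (2 * f) p := by
    refine Nat.Coprime.mul_left ?_ ?_
    · exact (Nat.coprime_primes Nat.prime_two hp).2 (Ne.symm hp2)
    · exact ((Nat.Prime.coprime_iff_not_dvd hp).2 hpf).symm
  obtain ⟨r, hr⟩ : ∃ r : ℕ, (2 * f * r) % p = 1 := by
    obtain ⟨r, -, hr⟩ := Nat.exists_mul_mod_eq_one_of_coprime hcop hp.one_lt
    exact ⟨r, hr⟩
  set s : ℕ := (2 * f * r) / p with hs
  have hrs : 2 * f * r = 1 + p * s := by
    have := Nat.mod_add_div (2 * f * r) p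
    rw [hr] at this
    exact this.symm
  have h1 : (u * (u ^ s) ^ p) ^ p = 1 := by
    have h2 : u * (u ^ s) ^ p = u ^ (2 * f * r) := by
      rw [hrs, pow_add, pow_one, ← pow_mul, mul_comm s p]
    rw [h2, ← pow_mul, show 2 * f * r * p = 2 * (f * p) * r by ring, pow_mul, hu, one_pow]
  obtain ⟨i, -, hi⟩ := hζ.eq_pow_of_pow_eq_one h1
  have hf0 : 0 < f * p := NeZero.pos _
  have huu : IsUnit u := by
    refine IsUnit.of_mul_eq_one (u ^ (2 * (f * p) - 1)) ?_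
    rw [← pow_succ', show 2 * (f * p) - 1 + 1 = 2 * (f * p) by omega, hu]
  refine ⟨i, x, J * u ^ s, ?_, ?_⟩
  · intro P hP hpP
    obtain ⟨h2, h3⟩ := hxJ P hP hpP
    refine ⟨h2, fun h4 => ?_⟩
    rcases hP.mem_or_mem h4 with h5 | h5
    · exact h3 h5
    · exact hP.ne_top (Ideal.eq_top_of_isUnit_mem _ (hP.mem_of_pow_mem _ h5) huu)
  · rw [hi, mul_pow]
    linear_combination (u ^ s) ^ p * h

end H66AB
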